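import Pool.Agent.H29.HMF.Stmts

/-!
Row LL2: logarithms of the units at the base points of the flats.
-/

set_option autoImplicit false

open Matrix MeasureTheory

namespace Pool.HMF

lemma ll2_r (v : Fin 2) : Pool.FL4.r (ix v) = (![√2, -√2] : Fin 2 → ℝ) v := by
  fin_cases v <;> rfl

lemma ll2_em (v : Fin 2) (x y : ℤ) : em v ⟨x, y⟩ = x + y * Pool.FL4.r (ix v) := by
  rw [ll2_r]
  simp only [em]
  ring

/-- the matrix of the multiplication by `κ + μ β y` -/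
def ll2M (κ μ β S : ℤ√2) : Matrix (Fin 2) (Fin 2) (ℤ√2) :=
  !![κ + -(S * β * μ), (β * β + -1 + -(S * S)) * μ; β * β * μ, κ + S * β * μ]

lemma ll2_cm (hBAS : BASS) (v : Fin 2) (κ μ β S : ℤ√2) : cm v (ll2M κ μ β S) =
    !![em v κ - em v S * em v β * em v μ, (em v β ^ 2 - 1 - em v S ^ 2) * em v μ;
      em v β ^ 2 * em v μ, em v κ + em v S * em v β * em v μ] := by
  obtain ⟨hm, ha, hn, h1, h0, hinj, -⟩ := hBAS
  ext a b
  fin_cases a <;> fin_cases b <;>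
    simp [cm, ll2M, hm, ha, hn, h1, -mul_eq_mul_right_iff, -mul_eq_mul_left_iff] <;> ring

lemma ll2_core (hBAS : BASS) (i : ℕ) (hi : 1 ≤ i) (a b c d : ℤ) (ξ : Fin 4 → ℝ)
    (h1 : ∀ j, ξ j = (a + b * Pool.FL4.r j) + (c + d * Pool.FL4.r j) * Pool.FL4.be i j *
      Pool.FL4.yy i j)
    (h2 : ∀ j, (ξ j)⁻¹ = (a + b * Pool.FL4.r j) - (c + d * Pool.FL4.r j) * Pool.FL4.be i j *
      Pool.FL4.yy i j)
    (l : Fin 2 → ℝ) (h3 : ∀ v, ξ (ix v) = Real.exp (l v)) (s : ℤ) : l ∈ Lam (gs i s) := by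
  obtain ⟨-, hy2, hy0, hb0, -⟩ := Pool.FL4.pos Pool.FL4.seq i hi
  set κ : ℤ√2 := ⟨a, b⟩ with hκ
  set μ : ℤ√2 := ⟨c, d⟩ with hμ
  set β : ℤ√2 := ⟨Pool.FL4.P i, Pool.FL4.Q i + 1⟩ with hβ
  set S : ℤ√2 := ⟨s, 0⟩ with hS
  have eκ : ∀ v, em v κ = a + b * Pool.FL4.r (ix v) := fun v => ll2_em v a b
  have eμ : ∀ v, em v μ = c + d * Pool.FL4.r (ix v) := fun v => ll2_em v c d
  have eβ : ∀ v, em v β = Pool.FL4.be i (ix v) := by
    intro v
    rw [hβ, ll2_em]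
    simp [Pool.FL4.be]
  have eS : ∀ v, em v S = s := by
    intro v
    rw [hS, ll2_em]
    simp
  have hx0 : ∀ v, ξ (ix v) ≠ 0 := fun v => by rw [h3 v]; exact (Real.exp_pos _).ne'
  have hprod : ∀ v, em v κ ^ 2 - em v β ^ 2 * (em v β ^ 2 - 1) * em v μ ^ 2 = 1 := by
    intro v
    have e1 := mul_inv_cancel₀ (hx0 v)
    rw [h2 (ix v), h1 (ix v)] at e1
    rw [eκ, eμ, eβ, ← hy2 (ix v), ← e1]
    ring
  have hdet : (ll2M κ μ β S).det = 1 := by
    have hB := hBAS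
    obtain ⟨-, -, -, he1, -, hinj, -, -, -, hd, -⟩ := hB
    apply hinj 0
    rw [← hd, ll2_cm hBAS, Matrix.det_fin_two, he1]
    simp only [Matrix.of_apply, Matrix.cons_val', Matrix.cons_val_zero, Matrix.cons_val_one,
      Matrix.cons_val_fin_one]
    linear_combination hprod 0
  refine ⟨⟨ll2M κ μ β S, hdet⟩, fun _ => 1, fun v => ⟨by norm_num, ?_⟩⟩
  have hMdet : (Ms i s v).det ≠ 0 := by
    rw [Ms, Matrix.det_fin_two]
    simp only [Matrix.of_apply, Matrix.cons_val', Matrix.cons_val_zero, Matrix.cons_val_one,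
      Matrix.cons_val_fin_one]
    have e : (Pool.FL4.yy i (ix v) - s) * Pool.FL4.be i (ix v) -
        (-Pool.FL4.yy i (ix v) - s) * Pool.FL4.be i (ix v) =
        2 * Pool.FL4.yy i (ix v) * Pool.FL4.be i (ix v) := by ring
    rw [e]
    exact mul_ne_zero (mul_ne_zero two_ne_zero (hy0 _)) (hb0 _)
  have hg : (gs i s v).1 = Ms i s v * diagonal ![1, (Ms i s v).det⁻¹] := by
    have e : ∀ B : Matrix (Fin 2) (Fin 2) ℝ, B.det ≠ 0 →
        (nrm2 B).1 = B * diagonal ![1, B.det⁻¹] := by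
      intro B hB
      exact congrArg Subtype.val (dif_pos hB)
    exact e _ hMdet
  have hD : dg (l v) = diagonal ![ξ (ix v), (ξ (ix v))⁻¹] := by
    rw [dg, h3 v, Real.exp_neg]
  have hcomm : cm v (ll2M κ μ β S) * Ms i s v = Ms i s v * diagonal ![ξ (ix v), (ξ (ix v))⁻¹] := by
    rw [ll2_cm hBAS, eκ, eμ, eβ, eS, h2, h1]
    have hyy := hy2 (ix v)
    ext p q
    fin_cases p <;> fin_cases q <;>
      simp [Ms, Matrix.mul_apply, Fin.sum_univ_two, Matrix.diagonal] <;>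
      first
        | linear_combination (0 : ℝ) * hyy
        | linear_combination (-(c + d * Pool.FL4.r (ix v)) * Pool.FL4.be i (ix v)) * hyy
  show cm v (ll2M κ μ β S) * (gs i s v).1 = (gs i s v).1 * ((1 : ℝ) • dg (l v))
  rw [one_smul, hg, hD, ← Matrix.mul_assoc, hcomm, Matrix.mul_assoc, Matrix.mul_assoc,
    Matrix.diagonal_mul_diagonal, Matrix.diagonal_mul_diagonal]
  congr 1
  congr 1
  funext x
  ring

theorem ll2_thm (hBAS : BASS) : LL2S := by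
  intro i hi
  obtain ⟨A, B, C, D, hA, hB, hC, hD, hne, hw1, hw2⟩ := Pool.FL4.lgs Pool.FL4.seq
    (Pool.FL4.pos Pool.FL4.seq) i hi
  obtain ⟨⟨a, b, c, d, h1⟩, ⟨a', b', c', d', h2⟩⟩ := Pool.FL4.alg Pool.FL4.seq
    (Pool.FL4.pos Pool.FL4.seq) i hi
  refine ⟨A, B, C, D, hA, hB, hC, hD, hne, fun s => ⟨?_, ?_⟩⟩
  · refine ll2_core hBAS i hi a b c d _ (fun j => (h1 j).1) (fun j => (h1 j).2) _ ?_ s
    intro v
    have e := hw1 (ix v)
    rw [abs_of_nonneg (by positivity)] at e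
    rw [e]
    fin_cases v <;> rfl
  · refine ll2_core hBAS i hi a' b' c' d' _ (fun j => (h2 j).1) (fun j => (h2 j).2) _ ?_ s
    intro v
    have e := hw2 (ix v)
    rw [abs_of_nonneg (by positivity)] at e
    rw [e]
    fin_cases v <;> rfl

end Pool.HMF
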